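import Pool.Agent.Run7.h744.T.Inv5
import Pool.Agent.Run7.h744.T.Inv7

/-!
# The local determinants are nonzero
-/

set_option autoImplicit false

open Polynomial Pool.Agent.H337R2

namespace Pool.Agent.Run7.h744.T

open Pool.Agent.Run7.h851.T

namespace H5

attribute [local instance] fact11

theorem det_ne {m : ℕ} (M : Matrix (Fin m) (Fin m) ℚ) (N B : ℕ → ℕ → ℕ)
    (h : ∀ i j : Fin m, Rl (M i j) (N i j))
    (hB : ∀ i < m, ∀ j < m, (∑ k ∈ Finset.range m, N i k * B k j) % 11 = if i = j then 1 else 0) :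
    M.det ≠ 0 := by
  intro h0
  choose Z hZ hZ' using h
  have e1 : (Matrix.of Z).det = 0 := by
    have h1 : (Matrix.of Z).map (PadicInt.Coe.ringHom (p := 11)) = M.map (Rat.castHom ℚ_[11]) := by
      ext i j
      exact hZ i j
    have h2 := RingHom.map_det (PadicInt.Coe.ringHom (p := 11)) (Matrix.of Z)
    have h3 := RingHom.map_det (Rat.castHom ℚ_[11]) M
    rw [h0, map_zero] at h3
    have h4 : (PadicInt.Coe.ringHom (p := 11)) (Matrix.of Z).det = 0 := by
      rw [h2, RingHom.mapMatrix_apply, h1, h3, RingHom.mapMatrix_apply]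
    exact Subtype.ext h4
  have e2 : ((Matrix.of Z).map (PadicInt.toZMod (p := 11))).det = 0 := by
    have h2 := RingHom.map_det (PadicInt.toZMod (p := 11)) (Matrix.of Z)
    rw [e1, map_zero] at h2
    exact h2.symm
  have e3 : (Matrix.of Z).map (PadicInt.toZMod (p := 11)) *
      (Matrix.of fun k j : Fin m => ((B k j : ℕ) : ZMod 11)) = 1 := by
    ext i j
    rw [Matrix.mul_apply]
    have h1 : ∀ k : Fin m, (Matrix.of Z).map (PadicInt.toZMod (p := 11)) i k *
        (Matrix.of fun k j : Fin m => ((B k j : ℕ) : ZMod 11)) k j =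
        ((N i k * B k j : ℕ) : ZMod 11) := by
      intro k
      rw [Nat.cast_mul]
      show PadicInt.toZMod (Z i k) * ((B k j : ℕ) : ZMod 11) = _
      rw [hZ' i k]
    rw [Finset.sum_congr rfl fun k _ => h1 k, ← Nat.cast_sum,
      Fin.sum_univ_eq_sum_range (fun k => N i k * B k j) m, ← ZMod.natCast_mod,
      hB i i.2 j j.2, Matrix.one_apply]
    by_cases hij : i = j
    · rw [if_pos hij, if_pos (by rw [hij]), Nat.cast_one]
    · rw [if_neg hij, if_neg (fun h => hij (Fin.ext h)), Nat.cast_zero]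
  have e4 := congrArg Matrix.det e3
  rw [Matrix.det_mul, e2, zero_mul, Matrix.det_one] at e4
  exact absurd e4 (by decide)


theorem dot2 (N M m n : ℕ) (hm : m = 143) (hn : n = 144) (hN : N < 100000 ^ n) (hM : M < 100000 ^ n)
    (hN' : ∀ k < n, dh N k ≤ 10) (hM' : ∀ k < n, dh M k ≤ 10) :
    N * M / 100000 ^ m % 100000 = ∑ k ∈ Finset.range n, dh N k * dh M (m - k) := by
  have h : n = m + 1 := by omega
  subst h
  exact dot N M m (by omega) hN hM hN' hM'

theorem dh_lo (a w : ℕ) {k : ℕ} (hk : k < 48) : dh (a + w * 100000 ^ 48) k = dh a k := by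
  unfold dh
  have h1 : (100000 : ℕ) ^ 48 = 100000 ^ k * (100000 * 100000 ^ (47 - k)) := by
    rw [← pow_succ', ← pow_add]
    congr 1
    omega
  rw [h1]
  have h2 : a + w * (100000 ^ k * (100000 * 100000 ^ (47 - k))) =
      a + 100000 ^ k * (100000 * (w * 100000 ^ (47 - k))) := by ring
  rw [h2, Nat.add_mul_div_left _ _ (by positivity), Nat.add_mul_mod_self_left]

theorem dh_hi {a : ℕ} (w : ℕ) {k : ℕ} (ha : a < 100000 ^ 48) (hk : 48 ≤ k) :
    dh (a + w * 100000 ^ 48) k = dh w (k - 48) := by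
  unfold dh
  have h1 : (100000 : ℕ) ^ k = 100000 ^ 48 * 100000 ^ (k - 48) := by
    rw [← pow_add]
    congr 1
    omega
  rw [h1, ← Nat.div_div_eq_div_mul, Nat.add_mul_div_right _ _ (by positivity), Nat.div_eq_of_lt ha,
    zero_add]

theorem dh_mod (x : ℕ) {k : ℕ} (hk : k < 48) : dh (x % 100000 ^ 48) k = dh x k := by
  have h1 := Nat.mod_add_div x (100000 ^ 48)
  conv_rhs => rw [← h1]
  rw [mul_comm (100000 ^ 48) (x / 100000 ^ 48), dh_lo _ _ hk]

theorem dh_div (x i k : ℕ) : dh (x / 100000 ^ i) k = dh x (i + k) := by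
  unfold dh
  rw [Nat.div_div_eq_div_mul, ← pow_add]

theorem dh_row (x y z i : ℕ) {k : ℕ} (hk : k < 144) :
    dh (x / 100000 ^ i % 100000 ^ 48 + (y / 100000 ^ i % 100000 ^ 48) * 100000 ^ 48 +
      (z / 100000 ^ i % 100000 ^ 48) * 100000 ^ 96) k =
      if k < 48 then dh x (i + k) else if k < 96 then dh y (i + (k - 48)) else dh z (i + (k - 96)) := by
  have h0 : (0 : ℕ) < 100000 ^ 48 := by positivity
  have e : x / 100000 ^ i % 100000 ^ 48 + (y / 100000 ^ i % 100000 ^ 48) * 100000 ^ 48 +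
      (z / 100000 ^ i % 100000 ^ 48) * 100000 ^ 96 = x / 100000 ^ i % 100000 ^ 48 +
      (y / 100000 ^ i % 100000 ^ 48 + (z / 100000 ^ i % 100000 ^ 48) * 100000 ^ 48) * 100000 ^ 48 := by
    have e1 : (100000 : ℕ) ^ 96 = 100000 ^ 48 * 100000 ^ 48 := by rw [← pow_add]
    rw [e1]
    ring
  rw [e]
  split_ifs with h1 h2
  · rw [dh_lo _ _ h1, dh_mod _ h1, dh_div]
  · rw [dh_hi _ (Nat.mod_lt _ h0) (by omega), dh_lo _ _ (by omega), dh_mod _ (by omega), dh_div]
  · rw [dh_hi _ (Nat.mod_lt _ h0) (by omega), dh_hi _ (Nat.mod_lt _ h0) (by omega),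
      dh_mod _ (by omega), dh_div]
    congr 1

/-- the entries modulo `11` -/
def EN (z l k : ℕ) : ℕ :=
  if k < 48 then dh FF (l + k) else if k < 96 then dh B3 (l + (k - 48)) else dh z (l + (k - 96))

theorem R5_lt : ∀ i < 144, R5 i < 100000 ^ 144 := by
  decide +kernel

theorem R7_lt : ∀ i < 144, R7 i < 100000 ^ 144 := by
  decide +kernel

theorem inv5 : ∀ i < 144, ∀ j < 144,
    (∑ k ∈ Finset.range 144, EN B5 i k * dh (C5.getD j 0) (143 - k)) % 11 = if i = j then 1 else 0 := by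
  intro i hi j hj
  have h1 := dot2 (R5 i) (C5.getD j 0) 143 144 rfl rfl (R5_lt i hi) (C5_lt j hj) (R5_dig i hi)
    (C5_dig j hj)
  have h2 := C5_inv i hi j hj
  rw [h1] at h2
  rw [← h2]
  refine congrArg (fun w : ℕ => w % 11) (Finset.sum_congr rfl fun k hk => ?_)
  rw [Finset.mem_range] at hk
  exact congrArg (fun w : ℕ => w * dh (C5.getD j 0) (143 - k)) (dh_row FF B3 B5 i hk).symm

theorem inv7 : ∀ i < 144, ∀ j < 144,
    (∑ k ∈ Finset.range 144, EN B7 i k * dh (C7.getD j 0) (143 - k)) % 11 = if i = j then 1 else 0 := by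
  intro i hi j hj
  have h1 := dot2 (R7 i) (C7.getD j 0) 143 144 rfl rfl (R7_lt i hi) (C7_lt j hj) (R7_dig i hi)
    (C7_dig j hj)
  have h2 := C7_inv i hi j hj
  rw [h1] at h2
  rw [← h2]
  refine congrArg (fun w : ℕ => w % 11) (Finset.sum_congr rfl fun k hk => ?_)
  rw [Finset.mem_range] at hk
  exact congrArg (fun w : ℕ => w * dh (C7.getD j 0) (143 - k)) (dh_row FF B3 B7 i hk).symm

theorem main (i0 z : ℕ) (h0 : 1 ≤ i0) (hz : ∀ e < 192, BN i0 e % 11 = dh z e % 11) (C : ℕ → ℕ)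
    (hinv : ∀ i < 144, ∀ j < 144,
      (∑ k ∈ Finset.range 144, EN z i k * dh (C j) (143 - k)) % 11 = if i = j then 1 else 0) :
    (Matrix.of fun l l' : Fin 144 => if l'.1 < 48 then Fm (l.1 + l'.1) else
      if l'.1 < 96 then Bm 3 (l.1 + (l'.1 - 48)) else Bm i0 (l.1 + (l'.1 - 96))).det ≠ 0 := by
  refine det_ne _ (EN z) (fun k j => dh (C j) (143 - k)) ?_ hinv
  intro i j
  show Rl (if j.1 < 48 then Fm (i.1 + j.1) else
      if j.1 < 96 then Bm 3 (i.1 + (j.1 - 48)) else Bm i0 (i.1 + (j.1 - 96))) (EN z i.1 j.1)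
  unfold EN
  have hi := i.2
  have hj := j.2
  split_ifs with h1 h2
  · exact (rl_Fm _ (by omega)).congr (FN_val _ (by omega))
  · exact (rl_Bm 3 (by norm_num) _ (by omega)).congr (B3_val _ (by omega))
  · exact (rl_Bm i0 h0 _ (by omega)).congr (hz _ (by omega))

end H5

open H5 in
theorem t_H5_local : St_H5_local := by
  rintro i0 (rfl | rfl)
  · exact main 5 B5 (by norm_num) B5_val (fun j => C5.getD j 0) inv5
  · exact main 7 B7 (by norm_num) B7_val (fun j => C7.getD j 0) inv7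

end Pool.Agent.Run7.h744.T
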