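import Pool.Agent.Run7.h851.T.Iface

/-!
# Local determinants modulo `11`: reduction (port of `Dim7/H5.lean`)
-/

set_option autoImplicit false

open Polynomial Pool.Agent.H337R2

namespace Pool.Agent.Run7.h744.T

open Pool.Agent.Run7.h851.T

namespace H5

theorem fact11 : Fact (Nat.Prime 11) := ⟨by norm_num⟩

attribute [local instance] fact11

/-- `x` reduces to `n` modulo `11` -/
def Rl (x : ℚ) (n : ℕ) : Prop :=
  ∃ z : ℤ_[11], (z : ℚ_[11]) = (x : ℚ_[11]) ∧ PadicInt.toZMod z = (n : ZMod 11)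

theorem Rl.add {x y : ℚ} {m n : ℕ} (hx : Rl x m) (hy : Rl y n) : Rl (x + y) (m + n) := by
  obtain ⟨z, hz, hz'⟩ := hx
  obtain ⟨w, hw, hw'⟩ := hy
  exact ⟨z + w, by rw [PadicInt.coe_add, hz, hw, Rat.cast_add], by
    rw [map_add, hz', hw', Nat.cast_add]⟩

theorem Rl.mul {x y : ℚ} {m n : ℕ} (hx : Rl x m) (hy : Rl y n) : Rl (x * y) (m * n) := by
  obtain ⟨z, hz, hz'⟩ := hx
  obtain ⟨w, hw, hw'⟩ := hy
  exact ⟨z * w, by rw [PadicInt.coe_mul, hz, hw, Rat.cast_mul], by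
    rw [map_mul, hz', hw', Nat.cast_mul]⟩

theorem Rl.congr {x : ℚ} {m n : ℕ} (h : Rl x m) (hmn : m % 11 = n % 11) : Rl x n := by
  obtain ⟨z, hz, hz'⟩ := h
  refine ⟨z, hz, hz'.trans ?_⟩
  rw [← ZMod.natCast_mod m 11, hmn, ZMod.natCast_mod]

theorem Rl.nat (n : ℕ) : Rl (n : ℚ) n :=
  ⟨(n : ℤ_[11]), by rw [PadicInt.coe_natCast, Rat.cast_natCast], map_natCast _ _⟩

theorem Rl.neg_one : Rl (-1) 10 :=
  ⟨-1, by rw [PadicInt.coe_neg, PadicInt.coe_one, Rat.cast_neg, Rat.cast_one], by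
    rw [map_neg, map_one]; decide⟩

theorem Rl.neg {x : ℚ} {n : ℕ} (h : Rl x n) : Rl (-x) (10 * n) := by
  have := Rl.neg_one.mul h
  rwa [neg_one_mul] at this

theorem Rl.pow {x : ℚ} {n : ℕ} (h : Rl x n) (k : ℕ) : Rl (x ^ k) (n ^ k) := by
  induction k with
  | zero =>
    rw [pow_zero, pow_zero]
    exact_mod_cast Rl.nat 1
  | succ k ih => rw [pow_succ, pow_succ]; exact ih.mul h

theorem Rl.zero : Rl 0 0 := by
  exact_mod_cast Rl.nat 0

theorem Rl.one : Rl 1 1 := by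
  exact_mod_cast Rl.nat 1

theorem Rl.sub_nat (i j : ℕ) : Rl ((i : ℚ) - j) (i + 10 * j) := by
  rw [sub_eq_add_neg]
  exact (Rl.nat i).add (Rl.nat j).neg

theorem Rl.cancel {a x : ℚ} {m mi n : ℕ} (ha : Rl a m) (hm : m * mi % 11 = 1)
    (h : Rl (a * x) n) : Rl x (n * mi) := by
  obtain ⟨z, hz, hz'⟩ := ha
  obtain ⟨w, hw, hw'⟩ := h
  have h1 : (m : ZMod 11) * (mi : ZMod 11) = 1 := by
    rw [← Nat.cast_mul, ← ZMod.natCast_mod, hm, Nat.cast_one]
  have hne : PadicInt.toZMod z ≠ 0 := by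
    rw [hz']
    intro h0
    rw [h0, zero_mul] at h1
    exact absurd h1 (by decide)
  have hu : IsUnit z := by
    by_contra hcon
    have h2 : z ∈ IsLocalRing.maximalIdeal ℤ_[11] := (IsLocalRing.mem_maximalIdeal z).2 hcon
    rw [← PadicInt.ker_toZMod] at h2
    exact hne h2
  obtain ⟨u, rfl⟩ := hu
  have h3 : (((u : ℤ_[11]) : ℚ_[11])) * (((u⁻¹ : ℤ_[11]ˣ) : ℤ_[11]) : ℚ_[11]) = 1 := by
    rw [← PadicInt.coe_mul, Units.mul_inv, PadicInt.coe_one]
  have h4 : PadicInt.toZMod (u : ℤ_[11]) * PadicInt.toZMod ((u⁻¹ : ℤ_[11]ˣ) : ℤ_[11]) = 1 := by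
    rw [← map_mul, Units.mul_inv, map_one]
  refine ⟨w * ((u⁻¹ : ℤ_[11]ˣ) : ℤ_[11]), ?_, ?_⟩
  · rw [PadicInt.coe_mul, hw, Rat.cast_mul, ← hz]
    calc (((u : ℤ_[11]) : ℚ_[11])) * (x : ℚ_[11]) * (((u⁻¹ : ℤ_[11]ˣ) : ℤ_[11]) : ℚ_[11])
        = ((((u : ℤ_[11]) : ℚ_[11])) * (((u⁻¹ : ℤ_[11]ˣ) : ℤ_[11]) : ℚ_[11])) * (x : ℚ_[11]) := by ring
      _ = (x : ℚ_[11]) := by rw [h3, one_mul]
  · rw [map_mul, hw', Nat.cast_mul]
    congr 1
    rw [hz'] at h4
    calc PadicInt.toZMod ((u⁻¹ : ℤ_[11]ˣ) : ℤ_[11])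
        = ((m : ZMod 11) * (mi : ZMod 11)) * PadicInt.toZMod ((u⁻¹ : ℤ_[11]ˣ) : ℤ_[11]) := by
          rw [h1, one_mul]
      _ = (mi : ZMod 11) * ((m : ZMod 11) * PadicInt.toZMod ((u⁻¹ : ℤ_[11]ˣ) : ℤ_[11])) := by ring
      _ = (mi : ZMod 11) := by rw [h4, mul_one]

theorem Rl.sum {ι : Type} (s : Finset ι) (f : ι → ℚ) (g : ι → ℕ) (h : ∀ i ∈ s, Rl (f i) (g i)) :
    Rl (∑ i ∈ s, f i) (∑ i ∈ s, g i) := by
  classical
  induction s using Finset.induction_on with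
  | empty => simpa using Rl.zero
  | insert a s ha ih =>
    rw [Finset.sum_insert ha, Finset.sum_insert ha]
    exact (h a (Finset.mem_insert_self a s)).add
      (ih fun i hi => h i (Finset.mem_insert_of_mem hi))

/-- the digit `d` of `N` -/
def dg (N d : ℕ) : ℕ := N / 100 ^ d % 100

/-- `N` encodes the first 64 coefficients of `f` modulo `11` -/
def Rep (f : PowerSeries ℚ) (N : ℕ) : Prop := ∀ d, d < 64 → Rl (PowerSeries.coeff d f) (dg N d)

/-- the digit before `d` -/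
def pd (N : ℕ) : ℕ → ℕ
  | 0 => 0
  | d + 1 => dg N d

/-- `N'` is `(X + c) N` modulo `11` -/
def Chk (c N N' : ℕ) : Prop := ∀ d, d < 64 → dg N' d % 11 = (pd N d + c * dg N d) % 11

instance (c N N' : ℕ) : Decidable (Chk c N N') := by
  unfold Chk
  infer_instance

theorem coeff_lin_zero (c : ℚ) (f : PowerSeries ℚ) :
    PowerSeries.coeff 0 ((PowerSeries.X + PowerSeries.C c) * f) = c * PowerSeries.coeff 0 f := by
  rw [add_mul, map_add, PowerSeries.coeff_C_mul, PowerSeries.coeff_zero_X_mul, zero_add]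

theorem coeff_lin_succ (c : ℚ) (f : PowerSeries ℚ) (d : ℕ) :
    PowerSeries.coeff (d + 1) ((PowerSeries.X + PowerSeries.C c) * f) =
      PowerSeries.coeff d f + c * PowerSeries.coeff (d + 1) f := by
  rw [add_mul, map_add, PowerSeries.coeff_C_mul, PowerSeries.coeff_succ_X_mul]

theorem rep_mul {f : PowerSeries ℚ} {N N' c : ℕ} {c' : ℚ} (h : Rep f N) (hc : Rl c' c)
    (hk : Chk c N N') : Rep ((PowerSeries.X + PowerSeries.C c') * f) N' := by
  intro d hd
  have h1 := hk d hd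
  cases d with
  | zero =>
    rw [coeff_lin_zero]
    refine (hc.mul (h 0 hd)).congr ?_
    rw [h1]
    show _ = (0 + c * dg N 0) % 11
    rw [zero_add]
  | succ d =>
    rw [coeff_lin_succ]
    refine ((h d (by omega)).add (hc.mul (h (d + 1) hd))).congr ?_
    rw [h1]
    rfl

theorem rep_div {g : PowerSeries ℚ} {N N' c ci : ℕ} {c' : ℚ}
    (h : Rep ((PowerSeries.X + PowerSeries.C c') * g) N') (hc : Rl c' c) (hci : c * ci % 11 = 1)
    (hk : Chk c N N') : Rep g N := by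
  have key : ∀ a b x : ℕ, b % 11 = (a + c * x) % 11 → ((b + 10 * a) * ci) % 11 = x % 11 := by
    intro a b x hb
    have e1 : (b + 10 * a) % 11 = (c * x) % 11 := by omega
    calc ((b + 10 * a) * ci) % 11 = ((b + 10 * a) % 11 * (ci % 11)) % 11 := Nat.mul_mod _ _ _
      _ = ((c * x) % 11 * (ci % 11)) % 11 := by rw [e1]
      _ = (c * x * ci) % 11 := (Nat.mul_mod _ _ _).symm
      _ = (c * ci * x) % 11 := by rw [mul_right_comm]
      _ = ((c * ci) % 11 * (x % 11)) % 11 := Nat.mul_mod _ _ _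
      _ = x % 11 := by rw [hci, one_mul, Nat.mod_mod]
  intro d
  induction d with
  | zero =>
    intro hd
    have h1 := h 0 hd
    rw [coeff_lin_zero] at h1
    refine (hc.cancel hci h1).congr ?_
    have h2 := key 0 (dg N' 0) (dg N 0) (hk 0 hd)
    rwa [mul_zero, add_zero] at h2
  | succ d ih =>
    intro hd
    have h1 := h (d + 1) hd
    rw [coeff_lin_succ] at h1
    have h2 := ih (by omega)
    have h3 : Rl (c' * PowerSeries.coeff (d + 1) g) (dg N' (d + 1) + 10 * dg N d) := by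
      have h4 := h1.add h2.neg
      have h5 : PowerSeries.coeff d g + c' * PowerSeries.coeff (d + 1) g + -PowerSeries.coeff d g =
        c' * PowerSeries.coeff (d + 1) g := by ring
      rwa [h5] at h4
    exact (hc.cancel hci h3).congr (key (dg N d) (dg N' (d + 1)) (dg N (d + 1)) (hk (d + 1) hd))

theorem rep_iv_pow {a : ℚ} (ha : a ≠ 0) {c ci : ℕ} (hc : Rl a c) (hci : c * ci % 11 = 1)
    (L : List ℕ) (f : PowerSeries ℚ) (h0 : Rep f (L.getD 0 0)) (n : ℕ)
    (hk : ∀ k < n, Chk c (L.getD (k + 1) 0) (L.getD k 0)) :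
    Rep (iv a ^ n * f) (L.getD n 0) := by
  induction n with
  | zero => rwa [pow_zero, one_mul]
  | succ n ih =>
    have h1 := ih fun k hk' => hk k (by omega)
    refine rep_div (c' := a) (N' := L.getD n 0) ?_ hc hci (hk n (by omega))
    have h2 : (PowerSeries.X + PowerSeries.C a) * (iv a ^ (n + 1) * f) = iv a ^ n * f := by
      rw [pow_succ, ← mul_assoc, mul_comm (iv a ^ n) (iv a), ← mul_assoc, lin_mul_iv ha, one_mul]
    rw [h2]
    exact h1

theorem rep_lin_pow {a : ℚ} {c : ℕ} (hc : Rl a c) (L : List ℕ) (f : PowerSeries ℚ)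
    (h0 : Rep f (L.getD 0 0)) (e : ℕ)
    (hk : ∀ k < e, Chk c (L.getD k 0) (L.getD (k + 1) 0)) :
    Rep (f * (PowerSeries.X + PowerSeries.C a) ^ e) (L.getD e 0) := by
  induction e with
  | zero => rwa [pow_zero, mul_one]
  | succ e ih =>
    have h1 := ih fun k hk' => hk k (by omega)
    have h2 := rep_mul h1 hc (hk e (by omega))
    rwa [pow_succ, ← mul_assoc, mul_comm]

theorem rep_one : Rep 1 1 := by
  intro d hd
  rw [PowerSeries.coeff_one]
  split_ifs with h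
  · subst h
    exact Rl.one
  · have : dg 1 d = 0 := by
      unfold dg
      rw [Nat.div_eq_of_lt (Nat.one_lt_pow h (by norm_num))]
    rw [this]
    exact Rl.zero


end H5

end Pool.Agent.Run7.h744.T
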