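import Mathlib

/-!
# Products of packed numbers
-/

set_option autoImplicit false

open Polynomial

namespace Pool.Agent.Run7.h744.T

namespace H5

/-- the digit `d` of `N` in base `100000` -/
def dh (N d : ℕ) : ℕ := N / 100000 ^ d % 100000

/-- polynomial of the first `m` digits -/
noncomputable def pl (N m : ℕ) : ℕ[X] := ∑ k ∈ Finset.range m, monomial k (dh N k)

theorem pl_coeff (N m d : ℕ) : (pl N m).coeff d = if d < m then dh N d else 0 := by
  unfold pl
  rw [finset_sum_coeff]
  simp only [coeff_monomial]
  rw [Finset.sum_ite_eq' (Finset.range m) d]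
  simp only [Finset.mem_range]

theorem pl_eval (N m : ℕ) : (pl N m).eval 100000 = N % 100000 ^ m := by
  induction m with
  | zero => simp [pl, Nat.mod_one]
  | succ m ih =>
    have h1 : pl N (m + 1) = pl N m + monomial m (dh N m) := by
      unfold pl
      rw [Finset.sum_range_succ]
    rw [h1, eval_add, ih, eval_monomial, Nat.mod_pow_succ]
    unfold dh
    ring

theorem digit (s : ℕ) : ∀ r : ℕ[X], (∀ d ≤ s, r.coeff d < 100000) →
    r.eval 100000 / 100000 ^ s % 100000 = r.coeff s := by
  induction s with
  | zero =>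
    intro r h
    have h1 := divX_mul_X_add r
    have h2 : r.eval 100000 = r.coeff 0 + 100000 * (r.divX.eval 100000) := by
      conv_lhs => rw [← h1]
      rw [eval_add, eval_mul, eval_X, eval_C]
      ring
    rw [pow_zero, Nat.div_one, h2, Nat.add_mul_mod_self_left]
    exact Nat.mod_eq_of_lt (h 0 le_rfl)
  | succ s ih =>
    intro r h
    have h1 := divX_mul_X_add r
    have h2 : r.eval 100000 = r.coeff 0 + 100000 * (r.divX.eval 100000) := by
      conv_lhs => rw [← h1]
      rw [eval_add, eval_mul, eval_X, eval_C]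
      ring
    have h3 : r.eval 100000 / 100000 ^ (s + 1) = r.divX.eval 100000 / 100000 ^ s := by
      rw [pow_succ', ← Nat.div_div_eq_div_mul, h2, Nat.add_mul_div_left _ _ (by norm_num),
        Nat.div_eq_of_lt (h 0 (by omega)), zero_add]
    rw [h3, ih r.divX (fun d hd => by rw [coeff_divX]; exact h (d + 1) (by omega)), coeff_divX]

/-- the dot product of the digits, from the product of the numbers -/
theorem dot (N M m : ℕ) (hm : m + 1 ≤ 144) (hN : N < 100000 ^ (m + 1)) (hM : M < 100000 ^ (m + 1))
    (hN' : ∀ k < m + 1, dh N k ≤ 10) (hM' : ∀ k < m + 1, dh M k ≤ 10) :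
    N * M / 100000 ^ m % 100000 = ∑ k ∈ Finset.range (m + 1), dh N k * dh M (m - k) := by
  have h1 : (pl N (m + 1) * pl M (m + 1)).eval 100000 = N * M := by
    rw [eval_mul, pl_eval, pl_eval, Nat.mod_eq_of_lt hN, Nat.mod_eq_of_lt hM]
  have hc : ∀ d ≤ m, (pl N (m + 1) * pl M (m + 1)).coeff d =
      ∑ k ∈ Finset.range (d + 1), dh N k * dh M (d - k) := by
    intro d hd
    rw [coeff_mul, Finset.Nat.sum_antidiagonal_eq_sum_range_succ
      (fun i j => (pl N (m + 1)).coeff i * (pl M (m + 1)).coeff j)]
    refine Finset.sum_congr rfl fun k hk => ?_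
    have hk' := Finset.mem_range.1 hk
    rw [pl_coeff, pl_coeff, if_pos (by omega), if_pos (by omega)]
  have h2 := digit m (pl N (m + 1) * pl M (m + 1)) (by
    intro d hd
    rw [hc d hd]
    calc ∑ k ∈ Finset.range (d + 1), dh N k * dh M (d - k) ≤ ∑ _k ∈ Finset.range (d + 1), 10 * 10 := by
          refine Finset.sum_le_sum fun k hk => ?_
          have hk' := Finset.mem_range.1 hk
          exact Nat.mul_le_mul (hN' k (by omega)) (hM' _ (by omega))
      _ = (d + 1) * 100 := by simp
      _ < 100000 := by omega)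
  rw [h1, hc m le_rfl] at h2
  exact h2

end H5

end Pool.Agent.Run7.h744.T
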